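import Pool.Agent.Helper96.BV.Large
import Pool.Agent.Helper18.NF.Basic
import Pool.Agent.Helper18.NF.StA

/-!
# Project NF, module NF-23: characters of large conductor on average, for systems
-/

set_option autoImplicit false

open Finset Filter Topology
open Pool.Agent.Helper18.NF Pool.Agent.Helper18.BV
open scoped ArithmeticFunction.vonMangoldt ArithmeticFunction.zeta

namespace Pool.Agent.Helper71.NF

/-! ### arithmetic functions -/

theorem cx_mul (f g : ArithmeticFunction ℝ) : cx (f * g) = cx f * cx g := by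
  ext m
  rw [cx_apply, ArithmeticFunction.mul_apply, ArithmeticFunction.mul_apply]
  push_cast
  rfl

theorem cx_one : cx 1 = 1 := by
  ext m
  rw [cx_apply]
  rcases eq_or_ne m 1 with rfl | hm
  · simp
  · rw [ArithmeticFunction.one_apply_ne hm, ArithmeticFunction.one_apply_ne hm]; simp

theorem D_cx (f : ArithmeticFunction ℝ) : D (cx f) = cx (DR f) := by
  ext m
  rw [D_apply, cx_apply, cx_apply, DR_apply]
  push_cast
  rfl

theorem norm_cx (f : ArithmeticFunction ℝ) (m : ℕ) : ‖cx f m‖ = |f m| := by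
  rw [cx_apply, Complex.norm_real, Real.norm_eq_abs]

/-- bound for a Dirichlet convolution -/
theorem norm_mul_le {f g : ArithmeticFunction ℂ} {F G : ArithmeticFunction ℝ}
    (hf : ∀ m, ‖f m‖ ≤ F m) (hg : ∀ m, ‖g m‖ ≤ G m) (m : ℕ) : ‖(f * g) m‖ ≤ (F * G) m := by
  rw [ArithmeticFunction.mul_apply, ArithmeticFunction.mul_apply]
  refine (norm_sum_le _ _).trans (Finset.sum_le_sum fun p _ => ?_)
  rw [norm_mul]
  exact mul_le_mul (hf _) (hg _) (norm_nonneg _) ((norm_nonneg _).trans (hf _))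

/-! ### sums of powers of the divisor function -/

theorem sum_inv_le (N : ℕ) : ∑ m ∈ Icc 1 N, (1 : ℝ) / m ≤ 1 + Real.log N := by
  have h := harmonic_le_one_add_log N
  rw [harmonic_eq_sum_Icc] at h
  push_cast at h
  refine le_trans (le_of_eq ?_) h
  exact Finset.sum_congr rfl fun m _ => by rw [one_div]

open Pointwise in
theorem card_divisors_mul_le {a b : ℕ} :
    (a * b).divisors.card ≤ a.divisors.card * b.divisors.card := by
  rw [Nat.divisors_mul]
  exact Finset.card_mul_le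

theorem sum_tau_le (K N : ℕ) :
    ∑ m ∈ Icc 1 N, (m.divisors.card : ℝ) ^ K / m ≤ (1 + Real.log N) ^ (2 ^ K) := by
  induction K with
  | zero => simpa using sum_inv_le N
  | succ K ih =>
    have h0 : ∀ m ∈ Icc 1 N, (m.divisors.card : ℝ) ^ (K + 1) / m ≤
        ∑ p ∈ m.divisorsAntidiagonal, ((p.1.divisors.card : ℝ) ^ K / p.1) *
          ((p.2.divisors.card : ℝ) ^ K / p.2) := by
      intro m hm
      have hm0 : m ≠ 0 := by rw [Finset.mem_Icc] at hm; omega
      have h1 : ∀ p ∈ m.divisorsAntidiagonal, (m.divisors.card : ℝ) ^ K / m ≤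
          ((p.1.divisors.card : ℝ) ^ K / p.1) * ((p.2.divisors.card : ℝ) ^ K / p.2) := by
        rintro ⟨a, b⟩ hab
        obtain ⟨hab, -⟩ := Nat.mem_divisorsAntidiagonal.1 hab
        simp only at hab ⊢
        rw [div_mul_div_comm, ← mul_pow, ← hab]
        push_cast
        apply div_le_div_of_nonneg_right _ (by positivity)
        apply pow_le_pow_left₀ (Nat.cast_nonneg _)
        exact_mod_cast card_divisors_mul_le
      have h2 := Finset.card_nsmul_le_sum _ _ _ h1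
      have h3 : m.divisorsAntidiagonal.card = m.divisors.card := by
        rw [← Nat.map_div_right_divisors, Finset.card_map]
      rw [h3, nsmul_eq_mul] at h2
      refine le_trans (le_of_eq ?_) h2
      rw [pow_succ]
      ring
    refine (Finset.sum_le_sum h0).trans ?_
    have h1 : ∑ m ∈ Icc 1 N, ∑ p ∈ m.divisorsAntidiagonal, ((p.1.divisors.card : ℝ) ^ K / p.1) *
          ((p.2.divisors.card : ℝ) ^ K / p.2) ≤
        ∑ p ∈ Icc 1 N ×ˢ Icc 1 N, ((p.1.divisors.card : ℝ) ^ K / p.1) *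
          ((p.2.divisors.card : ℝ) ^ K / p.2) := by
      rw [← Finset.sum_biUnion]
      · apply Finset.sum_le_sum_of_subset_of_nonneg
        · rintro ⟨a, b⟩ hab
          rw [Finset.mem_biUnion] at hab
          obtain ⟨m, hm, hab⟩ := hab
          obtain ⟨hab, hm0⟩ := Nat.mem_divisorsAntidiagonal.1 hab
          simp only at hab
          rw [Finset.mem_Icc] at hm
          have ha : a ≠ 0 := by rintro rfl; simp at hab; omega
          have hb : b ≠ 0 := by rintro rfl; simp at hab; omega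
          rw [Finset.mem_product, Finset.mem_Icc, Finset.mem_Icc]
          refine ⟨⟨by omega, ?_⟩, ⟨by omega, ?_⟩⟩
          · exact (Nat.le_of_dvd (by omega) ⟨b, hab.symm⟩).trans hm.2
          · exact (Nat.le_of_dvd (by omega) ⟨a, by rw [← hab, mul_comm]⟩).trans hm.2
        · intro p _ _
          positivity
      · intro m _ m' _ hne
        rw [Function.onFun, Finset.disjoint_left]
        intro p hp hp'
        exact hne ((Nat.mem_divisorsAntidiagonal.1 hp).1.symm.trans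
          (Nat.mem_divisorsAntidiagonal.1 hp').1)
    refine h1.trans ?_
    rw [Finset.sum_product]
    simp only
    rw [← Finset.sum_mul_sum, pow_succ 2, pow_mul, pow_two]
    have h2 : 0 ≤ ∑ m ∈ Icc 1 N, (m.divisors.card : ℝ) ^ K / m :=
      Finset.sum_nonneg fun _ _ => by positivity
    exact mul_le_mul ih ih h2 (h2.trans ih)

theorem sum_tau_le_of_le (K N : ℕ) {x : ℝ} (hx : 3 ≤ x) (hN : (N : ℝ) ≤ x) :
    ∑ m ∈ Icc 1 N, (m.divisors.card : ℝ) ^ K / m ≤ (2 * Real.log x) ^ (2 ^ K) := by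
  have hl1 : 1 ≤ Real.log x := by
    rw [Real.le_log_iff_exp_le (by linarith)]
    have := Real.exp_one_lt_d9
    linarith
  rcases Nat.eq_zero_or_pos N with rfl | hN0
  · simp only [Finset.Icc_eq_empty_of_lt Nat.zero_lt_one, Finset.sum_empty]
    positivity
  refine (sum_tau_le K N).trans ?_
  have h1 : Real.log N ≤ Real.log x := Real.log_le_log (by exact_mod_cast hN0) hN
  have h2 : 0 ≤ Real.log N := Real.log_natCast_nonneg N
  exact pow_le_pow_left₀ (by linarith) (by linarith) _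

/-- the bound for `(r * L) m` -/
theorem conv_le {n : ℕ} {r L : ArithmeticFunction ℝ} {κ : ℝ} (h : IsSys n r L κ) {x : ℝ}
    (hx : 3 ≤ x) {m : ℕ} (hm : (m : ℝ) ≤ x) :
    (r * L) m ≤ (m.divisors.card : ℝ) ^ n * Real.log x := by
  rw [h.conv m]
  rcases Nat.eq_zero_or_pos m with rfl | hm0
  · simp only [Nat.cast_zero, Real.log_zero, mul_zero]
    have : 0 ≤ Real.log x := Real.log_nonneg (by linarith)
    positivity
  · have h1 : Real.log m ≤ Real.log x := Real.log_le_log (by exact_mod_cast hm0) hm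
    exact mul_le_mul (h.r_le m) h1 (Real.log_natCast_nonneg m) (by positivity)

/-- Module NF-23. -/
theorem largeF (h0 : VaughanId) (h1 : TypeOneF) (h2 : TypeTwoF) : LargeF := by
  intro n r L κ hS g hg A hA
  obtain ⟨C3, hC3, h3'⟩ := h1 n r L κ hS g hg
  obtain ⟨C4, hC4, h4'⟩ := h2 g hg
  obtain ⟨mu, hmu1, hmu2⟩ := hS.exists_inv
  have hn1 : (1 : ℝ) ≤ n := by exact_mod_cast hS.pos
  have hn0 : (0 : ℝ) < n := by linarith
  -- the exponents
  set K1 : ℕ := 2 ^ n + 2 with hK1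
  set K2 : ℕ := 2 ^ (2 * n) + 2 with hK2
  -- choice of X0
  have hev : ∀ᶠ x : ℝ in Filter.atTop, Real.log x ^ (A + K1) ≤ x ^ (1 / (4 * n) : ℝ) := by
    have h := isLittleO_log_rpow_rpow_atTop (A + K1)
      (by positivity : (0 : ℝ) < 1 / (4 * n))
    have h' := h.bound (by norm_num : (0 : ℝ) < 1)
    filter_upwards [h', Filter.eventually_ge_atTop (1 : ℝ)] with x hx hx1
    rw [one_mul, Real.norm_of_nonneg (Real.rpow_nonneg (Real.log_nonneg hx1) _),
      Real.norm_of_nonneg (Real.rpow_nonneg (by linarith) _)] at hx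
    exact hx
  obtain ⟨X1, hX1⟩ := Filter.eventually_atTop.1 hev
  refine ⟨2 * (A + K2), 2 * C3 * 2 ^ (2 ^ n) + 2 * C4 * 2 ^ (2 ^ (2 * n)), max 3 X1,
    by positivity, by positivity, le_max_left _ _, ?_⟩
  intro x hx
  have hx3 : 3 ≤ x := (le_max_left _ _).trans hx
  have hxe := hX1 x ((le_max_right _ _).trans hx)
  set l := Real.log x with hl
  have hx0 : 0 < x := by linarith
  have hl1 : 1 ≤ l := by
    rw [hl, Real.le_log_iff_exp_le (by linarith)]
    have := Real.exp_one_lt_d9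
    linarith
  have hl0 : 0 < l := by linarith
  set θ : ℝ := 1 / (40 * n ^ 2) with hθ
  have hθ0 : 0 < θ := by positivity
  have hθn : θ * n = 1 / (40 * n) := by rw [hθ]; field_simp
  have hθn' : θ ≤ 1 / (40 * n) := by
    rw [hθ]
    apply one_div_le_one_div_of_le (by positivity)
    nlinarith
  have hθ40 : θ ≤ 1 / 40 := by
    refine hθn'.trans ?_
    apply one_div_le_one_div_of_le (by positivity)
    linarith
  set Q := ⌊x ^ θ⌋₊ with hQ
  have hx40 : 1 ≤ x ^ θ := Real.one_le_rpow (by linarith) hθ0.le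
  have hQ1 : 1 ≤ Q := Nat.le_floor (by simpa using hx40)
  have hQx : (Q : ℝ) ≤ x ^ θ := Nat.floor_le (by positivity)
  have hQ0 : (0 : ℝ) ≤ Q := Nat.cast_nonneg _
  set U := Q ^ 4 with hU
  have hUx' : (U : ℝ) ≤ x ^ (θ * 4) := by
    rw [hU]
    push_cast
    calc (Q : ℝ) ^ 4 ≤ (x ^ θ) ^ 4 := pow_le_pow_left₀ hQ0 hQx 4
      _ = x ^ (θ * 4) := by
        rw [← Real.rpow_natCast, ← Real.rpow_mul hx0.le]; norm_num
  have hUx : (U : ℝ) ≤ x ^ (1 / 10 : ℝ) :=
    hUx'.trans (Real.rpow_le_rpow_of_exponent_le (by linarith) (by linarith))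
  have hU0 : (0 : ℝ) ≤ U := Nat.cast_nonneg _
  have hU1 : 1 ≤ U := Nat.one_le_pow _ _ hQ1
  have hUU : (U : ℝ) * U ≤ x ^ (θ * 8) := by
    calc (U : ℝ) * U ≤ x ^ (θ * 4) * x ^ (θ * 4) :=
          mul_le_mul hUx' hUx' hU0 (by positivity)
      _ = x ^ (θ * 8) := by rw [← Real.rpow_add hx0]; congr 1; ring
  have hUUx : (U : ℝ) * U ≤ x := by
    refine hUU.trans ?_
    calc x ^ (θ * 8) ≤ x ^ (1 : ℝ) :=
          Real.rpow_le_rpow_of_exponent_le (by linarith) (by linarith)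
      _ = x := Real.rpow_one x
  have hUle : (U : ℝ) ≤ (U : ℝ) * U := by
    have : (1 : ℝ) ≤ U := by exact_mod_cast hU1
    nlinarith
  have hpow : ∀ M : ℝ, 0 ≤ M → M ≤ (U : ℝ) * U → M ^ (1 / (n : ℝ)) ≤ x ^ (1 / (5 * n) : ℝ) := by
    intro M hM0 hM
    calc M ^ (1 / (n : ℝ)) ≤ (x ^ (θ * 8)) ^ (1 / (n : ℝ)) :=
          Real.rpow_le_rpow hM0 (hM.trans hUU) (by positivity)
      _ = x ^ (θ * 8 * (1 / (n : ℝ))) := by rw [← Real.rpow_mul hx0.le]
      _ ≤ x ^ (1 / (5 * n) : ℝ) := by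
          apply Real.rpow_le_rpow_of_exponent_le (by linarith)
          have h5 : θ * 8 * (1 / (n : ℝ)) ≤ (1 / 40) * 8 * (1 / (n : ℝ)) := by
            apply mul_le_mul_of_nonneg_right _ (by positivity)
            linarith
          refine h5.trans (le_of_eq ?_)
          field_simp
          norm_num
  -- Vaughan
  have hinv : cx r * cx mu = 1 := by rw [← cx_mul, hmu1, cx_one]
  have hlog : cx r * cx L = D (cx r) := by rw [← cx_mul, hS.DR_eq, D_cx]
  have hV := h0 U U (cx r) (cx mu) (cx L) hinv hlog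
  set b : ArithmeticFunction ℂ := hi U (cx L) * cx r with hb
  set a : ArithmeticFunction ℂ := hi U (cx mu) with ha
  have hnmu : ∀ m, ‖cx mu m‖ ≤ r m := fun m => by rw [norm_cx]; exact hmu2 m
  have hnr : ∀ m, ‖cx r m‖ ≤ r m := fun m => by rw [norm_cx, abs_of_nonneg (hS.r_nonneg m)]
  have hnL : ∀ m, ‖cx L m‖ ≤ L m := fun m => by rw [norm_cx, abs_of_nonneg (hS.L_nonneg m)]
  have hnlo : ∀ (f : ArithmeticFunction ℂ) (F : ArithmeticFunction ℝ), (∀ m, ‖f m‖ ≤ F m) →
      ∀ m, ‖lo U f m‖ ≤ F m := by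
    intro f F hf m
    rw [lo_apply]
    split_ifs
    · exact hf m
    · rw [norm_zero]; exact (norm_nonneg _).trans (hf m)
  have hnhi : ∀ (f : ArithmeticFunction ℂ) (F : ArithmeticFunction ℝ), (∀ m, ‖f m‖ ≤ F m) →
      ∀ m, ‖hi U f m‖ ≤ F m := by
    intro f F hf m
    rw [hi_apply]
    split_ifs
    · rw [norm_zero]; exact (norm_nonneg _).trans (hf m)
    · exact hf m
  have hbm : ∀ m : ℕ, (m : ℝ) ≤ x → ‖b m‖ ≤ (m.divisors.card : ℝ) ^ n * l := by
    intro m hm
    refine (norm_mul_le (hnhi _ _ hnL) hnr m).trans ?_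
    rw [mul_comm]
    exact conv_le hS hx3 hm
  have ham : ∀ m : ℕ, ‖a m‖ ≤ (m.divisors.card : ℝ) ^ n := fun m =>
    (hnhi _ _ hnmu m).trans (hS.r_le m)
  have hcm : ∀ m : ℕ, (m : ℝ) ≤ x → ‖(lo U (cx mu) * lo U (cx L)) m‖ ≤
      (m.divisors.card : ℝ) ^ n * l := by
    intro m hm
    exact (norm_mul_le (hnlo _ _ hnmu) (hnlo _ _ hnL) m).trans (conv_le hS hx3 hm)
  have hfl : ∀ m ∈ Icc 1 ⌊x⌋₊, (m : ℝ) ≤ x := fun m hm =>
    (Nat.le_floor_iff hx0.le).1 (Finset.mem_Icc.1 hm).2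
  have hT2 := h4' x hx3 Q U U hQ1 le_rfl le_rfl a b
    (by intro m hm; rw [ha, hi_apply, if_pos hm])
    (by
      intro m hm
      rw [hb, ArithmeticFunction.mul_apply]
      apply Finset.sum_eq_zero
      rintro ⟨d, e⟩ hde
      obtain ⟨hde, hm0⟩ := Nat.mem_divisorsAntidiagonal.1 hde
      simp only at hde ⊢
      rw [hi_apply, if_pos, zero_mul]
      exact (Nat.le_of_dvd (Nat.pos_of_ne_zero hm0) ⟨e, hde.symm⟩).trans hm)
    ((2 * l) ^ (2 ^ (2 * n))) (l ^ 2 * (2 * l) ^ (2 ^ (2 * n)))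
    (by
      refine le_trans (Finset.sum_le_sum fun m hm => ?_)
        (sum_tau_le_of_le (2 * n) ⌊x⌋₊ hx3 (Nat.floor_le hx0.le))
      apply div_le_div_of_nonneg_right _ (Nat.cast_nonneg _)
      calc ‖a m‖ ^ 2 ≤ ((m.divisors.card : ℝ) ^ n) ^ 2 :=
            pow_le_pow_left₀ (norm_nonneg _) (ham m) 2
        _ = (m.divisors.card : ℝ) ^ (2 * n) := by rw [← pow_mul, mul_comm])
    (by
      refine le_trans (Finset.sum_le_sum (g := fun m : ℕ =>
        l ^ 2 * ((m.divisors.card : ℝ) ^ (2 * n) / m)) fun m hm => ?_) ?_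
      · rw [← mul_div_assoc]
        apply div_le_div_of_nonneg_right _ (Nat.cast_nonneg _)
        calc ‖b m‖ ^ 2 ≤ ((m.divisors.card : ℝ) ^ n * l) ^ 2 :=
              pow_le_pow_left₀ (norm_nonneg _) (hbm m (hfl m hm)) 2
          _ = l ^ 2 * (m.divisors.card : ℝ) ^ (2 * n) := by
              rw [mul_pow, ← pow_mul, mul_comm n 2]; ring
      · rw [← Finset.mul_sum]
        exact mul_le_mul_of_nonneg_left
          (sum_tau_le_of_le (2 * n) ⌊x⌋₊ hx3 (Nat.floor_le hx0.le)) (by positivity))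
  have hsq : Real.sqrt ((2 * l) ^ (2 ^ (2 * n)) * (l ^ 2 * (2 * l) ^ (2 ^ (2 * n)))) =
      l * (2 * l) ^ (2 ^ (2 * n)) := by
    have h5 : (2 * l) ^ (2 ^ (2 * n)) * (l ^ 2 * (2 * l) ^ (2 ^ (2 * n))) =
        (l * (2 * l) ^ (2 ^ (2 * n))) ^ 2 := by ring
    rw [h5, Real.sqrt_sq (by positivity)]
  rw [hsq] at hT2
  -- pointwise estimate
  set W : ℝ := x ^ (1 / (5 * n) : ℝ) * (l * (2 * l) ^ (2 ^ n)) * l * x ^ (-(1 / (2 * n : ℝ)))
    with hW
  have hW0 : 0 ≤ W := by positivity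
  have hKc1 : ∑ m ∈ Icc 1 U, ‖lo U (cx mu) m‖ / m ≤ l * (2 * l) ^ (2 ^ n) := by
    calc ∑ m ∈ Icc 1 U, ‖lo U (cx mu) m‖ / m
        ≤ ∑ m ∈ Icc 1 U, (m.divisors.card : ℝ) ^ n / m :=
          Finset.sum_le_sum fun m _ => div_le_div_of_nonneg_right
            ((hnlo _ _ hnmu m).trans (hS.r_le m)) (Nat.cast_nonneg _)
      _ ≤ (2 * l) ^ (2 ^ n) := sum_tau_le_of_le n U hx3 (hUle.trans hUUx)
      _ ≤ l * (2 * l) ^ (2 ^ n) := by
          have : 0 ≤ (2 * l) ^ (2 ^ n) := by positivity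
          nlinarith
  have hKc2 : ∑ m ∈ Icc 1 (U * U), ‖(lo U (cx mu) * lo U (cx L)) m‖ / m ≤
      l * (2 * l) ^ (2 ^ n) := by
    have hUU' : ((U * U : ℕ) : ℝ) ≤ x := by push_cast; exact hUUx
    calc ∑ m ∈ Icc 1 (U * U), ‖(lo U (cx mu) * lo U (cx L)) m‖ / m
        ≤ ∑ m ∈ Icc 1 (U * U), l * ((m.divisors.card : ℝ) ^ n / m) := by
          refine Finset.sum_le_sum fun m hm => ?_
          rw [← mul_div_assoc]
          apply div_le_div_of_nonneg_right _ (Nat.cast_nonneg _)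
          rw [mul_comm l]
          refine hcm m (le_trans ?_ hUU')
          exact_mod_cast (Finset.mem_Icc.1 hm).2
      _ ≤ l * (2 * l) ^ (2 ^ n) := by
          rw [← Finset.mul_sum]
          exact mul_le_mul_of_nonneg_left (sum_tau_le_of_le n (U * U) hx3 hUU') hl0.le
  have hpt : ∀ q : ℕ, 1 < q → ∀ χ ∈ prim q, ‖SS (cx L) g x χ‖ ≤
      2 * (C3 * (q : ℝ) ^ n * W) + ‖SS (a * b : ArithmeticFunction ℂ) g x χ‖ := by
    intro q hq χ hχ
    have hq0 : NeZero q := ⟨by omega⟩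
    have hne := Helper96.BV.ne_one_of_prim hq hχ
    have hq0' : (0 : ℝ) ≤ q := Nat.cast_nonneg _
    have hfin : ∀ M : ℝ, 0 ≤ M → M ≤ (U : ℝ) * U →
        C3 * (q : ℝ) ^ n * M ^ (1 / (n : ℝ)) * (l * (2 * l) ^ (2 ^ n)) * l *
          x ^ (-(1 / (2 * n : ℝ))) ≤ C3 * (q : ℝ) ^ n * W := by
      intro M hM0 hM
      have h5 := hpow M hM0 hM
      calc C3 * (q : ℝ) ^ n * M ^ (1 / (n : ℝ)) * (l * (2 * l) ^ (2 ^ n)) * l *
          x ^ (-(1 / (2 * n : ℝ)))
          = C3 * (q : ℝ) ^ n * ((l * (2 * l) ^ (2 ^ n)) * l * x ^ (-(1 / (2 * n : ℝ)))) *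
            M ^ (1 / (n : ℝ)) := by ring
        _ ≤ C3 * (q : ℝ) ^ n * ((l * (2 * l) ^ (2 ^ n)) * l * x ^ (-(1 / (2 * n : ℝ)))) *
            x ^ (1 / (5 * n) : ℝ) := mul_le_mul_of_nonneg_left h5 (by positivity)
        _ = C3 * (q : ℝ) ^ n * W := by rw [hW]; ring
    have e1 : ‖SS (lo U (cx mu) * D (cx r) : ArithmeticFunction ℂ) g x χ‖ ≤
        C3 * (q : ℝ) ^ n * W := by
      have h5 := (h3' x hx3 q χ hne U (lo U (cx mu)) _ hKc1 (by
        intro m hm
        rw [lo_apply, if_neg (by omega)])).2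
      exact h5.trans (hfin U hU0 hUle)
    have e2 : ‖SS (lo U (cx mu) * lo U (cx L) * cx r : ArithmeticFunction ℂ) g x χ‖ ≤
        C3 * (q : ℝ) ^ n * W := by
      have h5 := (h3' x hx3 q χ hne (U * U) (lo U (cx mu) * lo U (cx L)) _ hKc2 (by
        intro m hm
        rw [ArithmeticFunction.mul_apply]
        apply Finset.sum_eq_zero
        rintro ⟨d, e⟩ hde
        obtain ⟨hde, hm0⟩ := Nat.mem_divisorsAntidiagonal.1 hde
        simp only at hde ⊢
        rw [lo_apply, lo_apply]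
        by_cases hd : d ≤ U
        · by_cases he : e ≤ U
          · have := Nat.mul_le_mul hd he
            omega
          · rw [if_neg he, mul_zero]
        · rw [if_neg hd, zero_mul])).1
      have h6 := hfin ((U * U : ℕ) : ℝ) (Nat.cast_nonneg _) (by push_cast; exact le_rfl)
      exact h5.trans h6
    have e3 : SS (cx L) g x χ = SS (lo U (cx mu) * D (cx r) : ArithmeticFunction ℂ) g x χ -
        SS (lo U (cx mu) * lo U (cx L) * cx r : ArithmeticFunction ℂ) g x χ +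
        SS (a * b : ArithmeticFunction ℂ) g x χ := by
      conv_lhs => rw [hV]
      rw [Helper96.BV.SS_add, Helper96.BV.SS_sub, Helper96.BV.SS_add,
        Helper96.BV.SS_lo hg hx3 hUx, zero_add]
    rw [e3]
    calc _ ≤ ‖SS (lo U (cx mu) * D (cx r) : ArithmeticFunction ℂ) g x χ -
          SS (lo U (cx mu) * lo U (cx L) * cx r : ArithmeticFunction ℂ) g x χ‖ +
          ‖SS (a * b : ArithmeticFunction ℂ) g x χ‖ := norm_add_le _ _
      _ ≤ _ := by
          have := norm_sub_le (SS (lo U (cx mu) * D (cx r) : ArithmeticFunction ℂ) g x χ)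
            (SS (lo U (cx mu) * lo U (cx L) * cx r : ArithmeticFunction ℂ) g x χ)
          linarith
  -- sum over q
  have hlB1 : 1 ≤ l ^ (2 * (A + K2)) := Real.one_le_rpow hl1 (by positivity)
  have hq_facts : ∀ q ∈ Ioc ⌊l ^ (2 * (A + K2))⌋₊ Q, 1 < q ∧ q ≤ Q ∧
      l ^ (2 * (A + K2)) < q := by
    intro q hq
    rw [Finset.mem_Ioc] at hq
    have h5 : 1 ≤ ⌊l ^ (2 * (A + K2))⌋₊ := Nat.le_floor (by simpa using hlB1)
    exact ⟨by omega, hq.2, Nat.lt_of_floor_lt hq.1⟩
  have hterm : ∀ q ∈ Ioc ⌊l ^ (2 * (A + K2))⌋₊ Q,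
      (1 / (q.totient : ℝ)) * ∑ χ ∈ prim q, ‖SS (cx L) g x χ‖ ≤
      2 * (C3 * (x ^ (θ * n)) * W) +
        2 * l ^ (-(A + K2)) * ∑ χ ∈ prim q, ‖SS (a * b : ArithmeticFunction ℂ) g x χ‖ := by
    intro q hq
    obtain ⟨hq1, hqQ, hqB⟩ := hq_facts q hq
    have hq0 : NeZero q := ⟨by omega⟩
    have hφ : (0 : ℝ) < q.totient := by exact_mod_cast Nat.totient_pos.2 (by omega : 0 < q)
    set E : ℝ := 2 * (C3 * (q : ℝ) ^ n * W) with hE
    have hE0 : 0 ≤ E := by positivity
    have h5 : ∑ χ ∈ prim q, ‖SS (cx L) g x χ‖ ≤ q.totient * E +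
        ∑ χ ∈ prim q, ‖SS (a * b : ArithmeticFunction ℂ) g x χ‖ := by
      calc ∑ χ ∈ prim q, ‖SS (cx L) g x χ‖
          ≤ ∑ χ ∈ prim q, (E + ‖SS (a * b : ArithmeticFunction ℂ) g x χ‖) :=
            Finset.sum_le_sum (fun χ hχ => hpt q hq1 χ hχ)
        _ = (prim q).card * E + ∑ χ ∈ prim q, ‖SS (a * b : ArithmeticFunction ℂ) g x χ‖ := by
            rw [Finset.sum_add_distrib]; simp
        _ ≤ _ := by
            have : ((prim q).card : ℝ) ≤ q.totient := by
              exact_mod_cast Helper96.BV.card_prim_le q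
            have := mul_le_mul_of_nonneg_right this hE0
            linarith
    have hsum0 : 0 ≤ ∑ χ ∈ prim q, ‖SS (a * b : ArithmeticFunction ℂ) g x χ‖ :=
      Finset.sum_nonneg (fun _ _ => norm_nonneg _)
    have h6 : 1 / (q.totient : ℝ) ≤ 2 * l ^ (-(A + K2)) := by
      refine (Helper96.BV.inv_totient_le (by omega : 0 < q)).trans ?_
      have h7 : l ^ (A + K2) ≤ Real.sqrt q := by
        rw [Real.le_sqrt (by positivity) (by positivity), ← Real.rpow_natCast, ← Real.rpow_mul hl0.le]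
        have : (A + K2) * ((2 : ℕ) : ℝ) = 2 * (A + K2) := by push_cast; ring
        rw [this]
        exact hqB.le
      rw [Real.rpow_neg hl0.le, ← div_eq_mul_inv]
      exact div_le_div_of_nonneg_left (by norm_num) (by positivity) h7
    calc (1 / (q.totient : ℝ)) * ∑ χ ∈ prim q, ‖SS (cx L) g x χ‖
        ≤ (1 / (q.totient : ℝ)) * (q.totient * E +
          ∑ χ ∈ prim q, ‖SS (a * b : ArithmeticFunction ℂ) g x χ‖) :=
          mul_le_mul_of_nonneg_left h5 (by positivity)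
      _ = E + (1 / (q.totient : ℝ)) *
          ∑ χ ∈ prim q, ‖SS (a * b : ArithmeticFunction ℂ) g x χ‖ := by
          field_simp
      _ ≤ _ := by
          apply add_le_add
          · rw [hE]
            have h8 : (q : ℝ) ^ n ≤ x ^ (θ * n) := by
              rw [Real.rpow_mul hx0.le, Real.rpow_natCast]
              apply pow_le_pow_left₀ (Nat.cast_nonneg _)
              exact le_trans (by exact_mod_cast hqQ) hQx
            have h9 : C3 * (q : ℝ) ^ n ≤ C3 * x ^ (θ * n) := mul_le_mul_of_nonneg_left h8 hC3.le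
            have := mul_le_mul_of_nonneg_right h9 hW0
            linarith
          · exact mul_le_mul_of_nonneg_right h6 hsum0
  have hsub : Ioc ⌊l ^ (2 * (A + K2))⌋₊ Q ⊆ Icc 1 Q := by
    intro q hq
    rw [Finset.mem_Ioc] at hq
    exact Finset.mem_Icc.2 ⟨by omega, hq.2⟩
  set E' : ℝ := 2 * (C3 * (x ^ (θ * n)) * W) with hE'
  have hE'0 : 0 ≤ E' := by positivity
  clear_value E'
  calc ∑ q ∈ Ioc ⌊l ^ (2 * (A + K2))⌋₊ Q, (1 / (q.totient : ℝ)) *
        ∑ χ ∈ prim q, ‖SS (cx L) g x χ‖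
      ≤ ∑ q ∈ Ioc ⌊l ^ (2 * (A + K2))⌋₊ Q, (E' +
        2 * l ^ (-(A + K2)) * ∑ χ ∈ prim q, ‖SS (a * b : ArithmeticFunction ℂ) g x χ‖) :=
        Finset.sum_le_sum hterm
    _ ≤ ∑ q ∈ Icc 1 Q, (E' +
        2 * l ^ (-(A + K2)) * ∑ χ ∈ prim q, ‖SS (a * b : ArithmeticFunction ℂ) g x χ‖) := by
        refine Finset.sum_le_sum_of_subset_of_nonneg hsub (fun q _ _ => ?_)
        have : 0 ≤ ∑ χ ∈ prim q, ‖SS (a * b : ArithmeticFunction ℂ) g x χ‖ :=
          Finset.sum_nonneg (fun _ _ => norm_nonneg _)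
        positivity
    _ = Q * E' + 2 * l ^ (-(A + K2)) *
        ∑ q ∈ Icc 1 Q, ∑ χ ∈ prim q, ‖SS (a * b : ArithmeticFunction ℂ) g x χ‖ := by
        rw [Finset.sum_add_distrib, ← Finset.mul_sum, Finset.sum_const, Nat.card_Icc,
          nsmul_eq_mul]
        norm_num
    _ ≤ x ^ θ * E' + 2 * l ^ (-(A + K2)) * (C4 * l * (l * (2 * l) ^ (2 ^ (2 * n)))) := by
        apply add_le_add
        · exact mul_le_mul_of_nonneg_right hQx hE'0
        · exact mul_le_mul_of_nonneg_left hT2 (by positivity)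
    _ ≤ 2 * C3 * 2 ^ (2 ^ n) * l ^ (-A) + 2 * C4 * 2 ^ (2 ^ (2 * n)) * l ^ (-A) := by
        apply add_le_add
        · have h5 : x ^ θ * E' = 2 * C3 * 2 ^ (2 ^ n) * ((x ^ θ * x ^ (θ * n) *
              x ^ (1 / (5 * n) : ℝ) * x ^ (-(1 / (2 * n : ℝ)))) * l ^ K1) := by
            rw [hE', hW, hK1, mul_pow, pow_add]
            ring
          rw [h5]
          apply mul_le_mul_of_nonneg_left _ (by positivity)
          have h6 : x ^ θ * x ^ (θ * n) * x ^ (1 / (5 * n) : ℝ) * x ^ (-(1 / (2 * n : ℝ))) ≤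
              x ^ (-(1 / (4 * n) : ℝ)) := by
            rw [← Real.rpow_add hx0, ← Real.rpow_add hx0, ← Real.rpow_add hx0]
            apply Real.rpow_le_rpow_of_exponent_le (by linarith)
            rw [hθn]
            have h7 : 1 / (40 * (n : ℝ)) + 1 / (40 * n) + 1 / (5 * n) + -(1 / (2 * n)) =
                -(1 / (4 * n)) := by
              field_simp
              norm_num
            linarith
          refine (mul_le_mul_of_nonneg_right h6 (by positivity)).trans ?_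
          rw [Real.rpow_neg hx0.le, Real.rpow_neg hl0.le]
          have h7 : 0 < x ^ (1 / (4 * n) : ℝ) := by positivity
          have h8 : 0 < l ^ A := by positivity
          rw [inv_mul_le_iff₀ h7, ← div_eq_mul_inv, le_div_iff₀ h8]
          calc l ^ K1 * l ^ A = l ^ (A + K1) := by
                rw [Real.rpow_add hl0, mul_comm, Real.rpow_natCast]
            _ ≤ _ := hxe
        · have h5 : l ^ (-(A + K2)) * l ^ K2 = l ^ (-A) := by
            rw [← Real.rpow_natCast l K2, ← Real.rpow_add hl0]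
            congr 1; ring
          have h6 : 2 * l ^ (-(A + K2)) * (C4 * l * (l * (2 * l) ^ (2 ^ (2 * n)))) =
              2 * C4 * 2 ^ (2 ^ (2 * n)) * (l ^ (-(A + K2)) * l ^ K2) := by
            rw [hK2, mul_pow, pow_add l]
            ring
          rw [h6, h5]
    _ = (2 * C3 * 2 ^ (2 ^ n) + 2 * C4 * 2 ^ (2 ^ (2 * n))) / l ^ A := by
        rw [Real.rpow_neg hl0.le]; ring

end Pool.Agent.Helper71.NF
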